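import Mathlib

/-!
# Statement T1: partition of a graph into stars with one or two leaves
-/

set_option autoImplicit false

namespace Pool.Agent.N435.Star

open Finset

/-- Target of T1: if every nonempty independent set `P ⊆ G` has at least `|P| / 2` neighbours in `G`,
then `G` can be partitioned into stars with one or two leaves; `c v` is the centre of the star
containing `v`. -/
def StarFactor.{u} : Prop :=
  ∀ (β : Type u) (_ : DecidableEq β) (G : Finset β) (adj : β → β → Prop) (_ : DecidableRel adj),
    (∀ a b, adj a b → adj b a) → (∀ a, ¬ adj a a) →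
    (∀ P ⊆ G, P.Nonempty → (∀ p ∈ P, ∀ q ∈ P, ¬ adj p q) →
      P.card ≤ 2 * (G.filter (fun k => ∃ p ∈ P, adj p k)).card) →
    ∃ c : β → β, (∀ v ∈ G, c v ∈ G ∧ c (c v) = c v ∧ (c v = v ∨ adj v (c v))) ∧
      ∀ w ∈ G, c w = w → 1 ≤ (G.filter (fun v => v ≠ w ∧ c v = w)).card ∧
        (G.filter (fun v => v ≠ w ∧ c v = w)).card ≤ 2

end Pool.Agent.N435.Star
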