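import Pool.Agent.N435.Star.StmT1

/-!
# T1: partition of a graph into stars with one or two leaves

Proof by helper415 for helper435: a packing of stars with one or two leaves which covers the most
vertices covers everything (Amahashi and Kano), by Hall's theorem.
-/

set_option autoImplicit false
set_option linter.unusedSectionVars false

namespace Pool.Agent.N435.Star

open Finset

universe u

section
variable {β : Type u} [DecidableEq β]

/-- A packing of stars with one or two leaves: `D` is the set of the leaves, `ψ l` is the centre of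
the star with the leaf `l`. -/
structure Pk (G : Finset β) (adj : β → β → Prop) (D : Finset β) (ψ : β → β) : Prop where
  sub : D ⊆ G
  mem : ∀ l ∈ D, ψ l ∈ G
  nmem : ∀ l ∈ D, ψ l ∉ D
  ad : ∀ l ∈ D, adj l (ψ l)
  two : ∀ w, (D.filter (fun l => ψ l = w)).card ≤ 2

/-- the number of covered vertices -/
def val (D : Finset β) (ψ : β → β) : ℕ := D.card + (D.image ψ).card

theorem exists_max (G : Finset β) (adj : β → β → Prop) :
    ∃ (D : Finset β) (ψ : β → β), Pk G adj D ψ ∧
      ∀ (D' : Finset β) (ψ' : β → β), Pk G adj D' ψ' → val D' ψ' ≤ val D ψ := by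
  by_contra hcon
  push Not at hcon
  have h1 : ∀ n : ℕ, ∃ (D : Finset β) (ψ : β → β), Pk G adj D ψ ∧ n ≤ val D ψ := by
    intro n
    induction n with
    | zero => exact ⟨∅, id, ⟨by simp, by simp, by simp, by simp, by simp⟩, Nat.zero_le _⟩
    | succ n ih =>
      obtain ⟨D, ψ, h, hn⟩ := ih
      obtain ⟨D', ψ', h', hn'⟩ := hcon D ψ h
      exact ⟨D', ψ', h', by omega⟩
  obtain ⟨D, ψ, h, hn⟩ := h1 (2 * G.card + 1)
  have h2 : D.card ≤ G.card := card_le_card h.sub
  have h3 : (D.image ψ).card ≤ D.card := card_image_le
  unfold val at hn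
  omega

/-- augmentation: in a packing which covers the most vertices, the neighbours of the vertices which
are not covered are centres of stars with two leaves -/
theorem aug {G : Finset β} {adj : β → β → Prop} (hs : ∀ a b, adj a b → adj b a)
    (hi : ∀ a, ¬ adj a a) {D : Finset β} {ψ : β → β} (h : Pk G adj D ψ)
    (hmax : ∀ (D' : Finset β) (ψ' : β → β), Pk G adj D' ψ' → val D' ψ' ≤ val D ψ) {x y : β}
    (hx : x ∈ G) (hxD : x ∉ D) (hxC : x ∉ D.image ψ) (hy : y ∈ G) (hxy : adj x y) :
    y ∉ D ∧ (D.filter (fun l => ψ l = y)).card = 2 := by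
  have hyx : y ≠ x := by
    rintro rfl
    exact hi _ hxy
  have hne : ∀ l ∈ D, l ≠ x := fun l hl h1 => hxD (h1 ▸ hl)
  have hpx : ∀ l ∈ D, ψ l ≠ x := fun l hl h1 => hxC (mem_image.2 ⟨l, hl, h1⟩)
  by_cases hyD : y ∈ D
  · exfalso
    have hyC : ∀ l ∈ D, ψ l ≠ y := fun l hl h1 => h.nmem l hl (h1 ▸ hyD)
    by_cases h2 : ∃ l' ∈ D, l' ≠ y ∧ ψ l' = ψ y
    · obtain ⟨l', hl', hl'y, hl'e⟩ := h2
      have hu : ∀ l ∈ D.erase y, Function.update ψ x y l = ψ l := fun l hl =>
        Function.update_of_ne (hne l (mem_of_mem_erase hl)) _ _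
      have hP : Pk G adj (insert x (D.erase y)) (Function.update ψ x y) := by
        refine ⟨?_, ?_, ?_, ?_, ?_⟩
        · intro l hl
          rcases mem_insert.1 hl with rfl | hl
          · exact hx
          · exact h.sub (mem_of_mem_erase hl)
        · intro l hl
          rcases mem_insert.1 hl with rfl | hl
          · rw [Function.update_self]; exact hy
          · rw [hu l hl]; exact h.mem l (mem_of_mem_erase hl)
        · intro l hl
          rcases mem_insert.1 hl with rfl | hl
          · rw [Function.update_self]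
            simp [hyx]
          · rw [hu l hl, mem_insert, not_or]
            exact ⟨hpx l (mem_of_mem_erase hl), fun h3 =>
              h.nmem l (mem_of_mem_erase hl) (mem_of_mem_erase h3)⟩
        · intro l hl
          rcases mem_insert.1 hl with rfl | hl
          · rw [Function.update_self]; exact hxy
          · rw [hu l hl]; exact h.ad l (mem_of_mem_erase hl)
        · intro w
          by_cases hw : w = y
          · have h3 : (insert x (D.erase y)).filter (fun l => Function.update ψ x y l = w) ⊆ {x} := by
              intro l hl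
              rw [mem_filter] at hl
              rcases mem_insert.1 hl.1 with h4 | h4
              · rw [h4]; exact mem_singleton_self _
              · exfalso
                rw [hu l h4, hw] at hl
                exact hyC l (mem_of_mem_erase h4) hl.2
            have h4 := card_le_card h3
            rw [card_singleton] at h4
            omega
          · refine le_trans (card_le_card ?_) (h.two w)
            intro l hl
            rw [mem_filter] at hl
            rcases mem_insert.1 hl.1 with h4 | h4
            · exfalso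
              rw [h4, Function.update_self] at hl
              exact hw hl.2.symm
            · rw [hu l h4] at hl
              exact mem_filter.2 ⟨mem_of_mem_erase h4, hl.2⟩
      have hv := hmax _ _ hP
      have h5 : (insert x (D.erase y)).card = D.card := by
        rw [card_insert_of_notMem (fun h6 => hxD (mem_of_mem_erase h6)), card_erase_of_mem hyD]
        have : 0 < D.card := card_pos.2 ⟨y, hyD⟩
        omega
      have h6 : insert y (D.image ψ) ⊆ (insert x (D.erase y)).image (Function.update ψ x y) := by
        intro w hw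
        rcases mem_insert.1 hw with rfl | hw
        · exact mem_image.2 ⟨x, mem_insert_self _ _, Function.update_self _ _ _⟩
        · obtain ⟨l, hl, rfl⟩ := mem_image.1 hw
          by_cases hly : l = y
          · have h7 : l' ∈ D.erase y := mem_erase.2 ⟨hl'y, hl'⟩
            refine mem_image.2 ⟨l', mem_insert_of_mem h7, ?_⟩
            rw [hu l' h7, hl'e, hly]
          · have h7 : l ∈ D.erase y := mem_erase.2 ⟨hly, hl⟩
            exact mem_image.2 ⟨l, mem_insert_of_mem h7, hu l h7⟩
      have h7 := card_le_card h6
      rw [card_insert_of_notMem (fun h8 => by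
        obtain ⟨l, hl, h9⟩ := mem_image.1 h8
        exact hyC l hl h9)] at h7
      unfold val at hv
      omega
    · push Not at h2
      obtain ⟨w₀, hw₀⟩ : ∃ w₀, w₀ = ψ y := ⟨_, rfl⟩
      have hwD : w₀ ∉ D := hw₀ ▸ h.nmem y hyD
      have hwx : w₀ ≠ x := hw₀ ▸ hpx y hyD
      have hwy : w₀ ≠ y := fun h3 => hwD (h3 ▸ hyD)
      have hyw : adj y w₀ := hw₀ ▸ h.ad y hyD
      have hwG : w₀ ∈ G := hw₀ ▸ h.mem y hyD
      obtain ⟨φ, hφ⟩ : ∃ φ : β → β, φ = Function.update (Function.update ψ w₀ y) x y := ⟨_, rfl⟩
      have hux : φ x = y := by rw [hφ, Function.update_self]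
      have huw : φ w₀ = y := by rw [hφ, Function.update_of_ne hwx, Function.update_self]
      have hu : ∀ l ∈ D.erase y, φ l = ψ l := by
        intro l hl
        have h3 : l ≠ w₀ := by
          rintro rfl
          exact hwD (mem_of_mem_erase hl)
        rw [hφ, Function.update_of_ne (hne l (mem_of_mem_erase hl)), Function.update_of_ne h3]
      have hcase : ∀ l, l ∈ insert x (insert w₀ (D.erase y)) → l = x ∨ l = w₀ ∨ l ∈ D.erase y := by
        intro l hl
        rcases mem_insert.1 hl with h3 | h3
        · exact Or.inl h3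
        · rcases mem_insert.1 h3 with h4 | h4
          · exact Or.inr (Or.inl h4)
          · exact Or.inr (Or.inr h4)
      have hP : Pk G adj (insert x (insert w₀ (D.erase y))) φ := by
        refine ⟨?_, ?_, ?_, ?_, ?_⟩
        · intro l hl
          rcases hcase l hl with h3 | h3 | h3
          · rw [h3]; exact hx
          · rw [h3]; exact hwG
          · exact h.sub (mem_of_mem_erase h3)
        · intro l hl
          rcases hcase l hl with h3 | h3 | h3
          · rw [h3, hux]; exact hy
          · rw [h3, huw]; exact hy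
          · rw [hu l h3]; exact h.mem l (mem_of_mem_erase h3)
        · have hyn : y ∉ insert x (insert w₀ (D.erase y)) := by
            intro h3
            rcases hcase y h3 with h4 | h4 | h4
            · exact hyx h4
            · exact hwy h4.symm
            · exact (mem_erase.1 h4).1 rfl
          intro l hl
          rcases hcase l hl with h3 | h3 | h3
          · rw [h3, hux]; exact hyn
          · rw [h3, huw]; exact hyn
          · rw [hu l h3]
            have h3' := mem_erase.1 h3
            intro h4
            rcases hcase _ h4 with h5 | h5 | h5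
            · exact hpx l h3'.2 h5
            · exact h2 l h3'.2 h3'.1 (h5.trans hw₀)
            · exact h.nmem l h3'.2 (mem_of_mem_erase h5)
        · intro l hl
          rcases hcase l hl with h3 | h3 | h3
          · rw [h3, hux]; exact hxy
          · rw [h3, huw]; exact hs _ _ hyw
          · rw [hu l h3]; exact h.ad l (mem_of_mem_erase h3)
        · intro w
          by_cases hw : w = y
          · have h3 : (insert x (insert w₀ (D.erase y))).filter (fun l => φ l = w) ⊆ {x, w₀} := by
              intro l hl
              rw [mem_filter] at hl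
              rcases hcase l hl.1 with h4 | h4 | h4
              · rw [h4]; simp
              · rw [h4]; simp
              · exfalso
                rw [hu l h4, hw] at hl
                exact hyC l (mem_of_mem_erase h4) hl.2
            exact (card_le_card h3).trans card_le_two
          · refine le_trans (card_le_card ?_) (h.two w)
            intro l hl
            rw [mem_filter] at hl
            rcases hcase l hl.1 with h4 | h4 | h4
            · exfalso
              rw [h4, hux] at hl
              exact hw hl.2.symm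
            · exfalso
              rw [h4, huw] at hl
              exact hw hl.2.symm
            · rw [hu l h4] at hl
              exact mem_filter.2 ⟨mem_of_mem_erase h4, hl.2⟩
      have hv := hmax _ _ hP
      have h5 : (insert x (insert w₀ (D.erase y))).card = D.card + 1 := by
        rw [card_insert_of_notMem, card_insert_of_notMem (fun h6 => hwD (mem_of_mem_erase h6)),
          card_erase_of_mem hyD]
        · have : 0 < D.card := card_pos.2 ⟨y, hyD⟩
          omega
        · intro h6
          rcases mem_insert.1 h6 with h7 | h7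
          · exact hwx h7.symm
          · exact hxD (mem_of_mem_erase h7)
      have h6 : insert y ((D.image ψ).erase w₀) ⊆ (insert x (insert w₀ (D.erase y))).image φ := by
        intro w hw
        rcases mem_insert.1 hw with h7 | h7
        · rw [h7]
          exact mem_image.2 ⟨x, mem_insert_self _ _, hux⟩
        · obtain ⟨h8, h9⟩ := mem_erase.1 h7
          obtain ⟨l, hl, rfl⟩ := mem_image.1 h9
          have h10 : l ∈ D.erase y := by
            refine mem_erase.2 ⟨?_, hl⟩
            rintro rfl
            exact h8 hw₀.symm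
          exact mem_image.2 ⟨l, mem_insert_of_mem (mem_insert_of_mem h10), hu l h10⟩
      have h7 := card_le_card h6
      rw [card_insert_of_notMem (fun h8 => by
        obtain ⟨l, hl, h9⟩ := mem_image.1 (mem_of_mem_erase h8)
        exact hyC l hl h9), card_erase_of_mem (hw₀ ▸ mem_image_of_mem ψ hyD)] at h7
      unfold val at hv
      omega
  · refine ⟨hyD, ?_⟩
    by_contra hcard
    have h1 : (D.filter (fun l => ψ l = y)).card ≤ 1 := by
      have := h.two y
      omega
    have hu : ∀ l ∈ D, Function.update ψ x y l = ψ l := fun l hl =>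
      Function.update_of_ne (hne l hl) _ _
    have hP : Pk G adj (insert x D) (Function.update ψ x y) := by
      refine ⟨?_, ?_, ?_, ?_, ?_⟩
      · intro l hl
        rcases mem_insert.1 hl with rfl | hl
        · exact hx
        · exact h.sub hl
      · intro l hl
        rcases mem_insert.1 hl with rfl | hl
        · rw [Function.update_self]; exact hy
        · rw [hu l hl]; exact h.mem l hl
      · intro l hl
        rcases mem_insert.1 hl with rfl | hl
        · rw [Function.update_self, mem_insert, not_or]
          exact ⟨hyx, hyD⟩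
        · rw [hu l hl, mem_insert, not_or]
          exact ⟨hpx l hl, h.nmem l hl⟩
      · intro l hl
        rcases mem_insert.1 hl with rfl | hl
        · rw [Function.update_self]; exact hxy
        · rw [hu l hl]; exact h.ad l hl
      · intro w
        by_cases hw : w = y
        · have h3 : (insert x D).filter (fun l => Function.update ψ x y l = w) ⊆
              insert x (D.filter (fun l => ψ l = y)) := by
            intro l hl
            rw [mem_filter] at hl
            rcases mem_insert.1 hl.1 with h4 | h4
            · rw [h4]; exact mem_insert_self _ _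
            · rw [hu l h4, hw] at hl
              exact mem_insert_of_mem (mem_filter.2 ⟨h4, hl.2⟩)
          have h4 := card_le_card h3
          have h5 := card_insert_le x (D.filter (fun l => ψ l = y))
          omega
        · refine le_trans (card_le_card ?_) (h.two w)
          intro l hl
          rw [mem_filter] at hl
          rcases mem_insert.1 hl.1 with h4 | h4
          · exfalso
            rw [h4, Function.update_self] at hl
            exact hw hl.2.symm
          · rw [hu l h4] at hl
            exact mem_filter.2 ⟨h4, hl.2⟩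
    have hv := hmax _ _ hP
    have h5 : (insert x D).card = D.card + 1 := card_insert_of_notMem hxD
    have h6 : D.image ψ ⊆ (insert x D).image (Function.update ψ x y) := by
      intro w hw
      obtain ⟨l, hl, rfl⟩ := mem_image.1 hw
      exact mem_image.2 ⟨l, mem_insert_of_mem hl, hu l hl⟩
    have h7 := card_le_card h6
    unfold val at hv
    omega

/-- the leaves whose centre is adjacent to an element of `R` -/
def Lv (adj : β → β → Prop) [DecidableRel adj] (D : Finset β) (ψ : β → β) (R : Finset β) : Finset β :=
  D.filter (fun l => ∃ x ∈ R, adj x (ψ l))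

theorem Lv_mono (adj : β → β → Prop) [DecidableRel adj] (D : Finset β) (ψ : β → β) {R R' : Finset β}
    (h : R ⊆ R') : Lv adj D ψ R ⊆ Lv adj D ψ R' := by
  intro l hl
  obtain ⟨h1, x, hx, h2⟩ := mem_filter.1 hl
  exact mem_filter.2 ⟨h1, x, h hx, h2⟩

/-- a minimal deficient set -/
theorem exists_min_def (adj : β → β → Prop) [DecidableRel adj] (D : Finset β) (ψ : β → β)
    (X : Finset β) (hX : (Lv adj D ψ X).card < X.card) :
    ∃ R ⊆ X, (Lv adj D ψ R).card < R.card ∧
      ∀ R' ⊂ R, R'.card ≤ (Lv adj D ψ R').card := by
  have h1 : ((X.powerset.filter (fun R => (Lv adj D ψ R).card < R.card))).Nonempty :=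
    ⟨X, mem_filter.2 ⟨mem_powerset_self X, hX⟩⟩
  obtain ⟨R, hR, hmin⟩ := exists_min_image _ (fun R : Finset β => R.card) h1
  rw [mem_filter, mem_powerset] at hR
  refine ⟨R, hR.1, hR.2, ?_⟩
  intro R' hR'
  by_contra hcon
  push Not at hcon
  have h2 := hmin R' (mem_filter.2 ⟨mem_powerset.2 (hR'.1.trans hR.1), hcon⟩)
  have h3 := card_lt_card hR'
  omega

/-- the exchange -/
theorem exch {G : Finset β} {adj : β → β → Prop} [DecidableRel adj] {D : Finset β} {ψ : β → β}
    (h : Pk G adj D ψ) {u : β} (hu : u ∈ G) (huD : u ∉ D) (huC : u ∉ D.image ψ) {R : Finset β}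
    (hRX : R ⊆ insert u D) (hR : (Lv adj D ψ R).card < R.card)
    (hmin : ∀ R' ⊂ R, R'.card ≤ (Lv adj D ψ R').card) {x : β} (hx : x ∈ R) :
    (Lv adj D ψ R).card + 1 = R.card ∧
    ∃ ψ' : β → β, Pk G adj ((insert u D).erase x) ψ' ∧
      ((insert u D).erase x).image ψ' = D.image ψ ∧
      ((insert u D).erase x).card = D.card ∧
      ∀ w, (((insert u D).erase x).filter (fun l => ψ' l = w)).card =
        (D.filter (fun l => ψ l = w)).card := by
  have hpos : 0 < R.card := card_pos.2 ⟨x, hx⟩
  have hL : (Lv adj D ψ R).card + 1 = R.card := by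
    have h1 := hmin (R.erase x) (erase_ssubset hx)
    rw [card_erase_of_mem hx] at h1
    have h2 := card_le_card (Lv_mono adj D ψ (erase_subset x R))
    omega
  refine ⟨hL, ?_⟩
  have hRD : ∀ l ∈ R, l ∈ D → l ∈ Lv adj D ψ R := fun l hl hlD =>
    mem_filter.2 ⟨hlD, l, hl, h.ad l hlD⟩
  have huR : u ∈ R := by
    by_contra huR
    have h1 : R ⊆ Lv adj D ψ R := by
      intro l hl
      refine hRD l hl ?_
      rcases mem_insert.1 (hRX hl) with h2 | h2
      · exact absurd (h2 ▸ hl) huR
      · exact h2
    have h2 := card_le_card h1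
    omega
  have hLe : R.erase u = Lv adj D ψ R := by
    refine eq_of_subset_of_card_le ?_ ?_
    · intro l hl
      obtain ⟨h1, h2⟩ := mem_erase.1 hl
      refine hRD l h2 ?_
      rcases mem_insert.1 (hRX h2) with h3 | h3
      · exact absurd h3 h1
      · exact h3
    · rw [card_erase_of_mem huR]
      omega
  -- Hall
  obtain ⟨f, hf1, hf2⟩ := (Finset.all_card_le_biUnion_card_iff_exists_injective
    (fun a : {a // a ∈ R.erase x} => D.filter (fun l => adj a (ψ l)))).1 (by
      intro s
      have h1 : s.biUnion (fun a : {a // a ∈ R.erase x} => D.filter (fun l => adj a (ψ l))) =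
          Lv adj D ψ (s.map (Function.Embedding.subtype _)) := by
        ext l
        simp only [mem_biUnion, mem_filter, Lv, mem_map, Function.Embedding.coe_subtype]
        constructor
        · rintro ⟨a, ha, h2, h3⟩
          exact ⟨h2, a, ⟨a, ha, rfl⟩, h3⟩
        · rintro ⟨h2, _, ⟨a, ha, rfl⟩, h3⟩
          exact ⟨a, ha, h2, h3⟩
      rw [h1, ← card_map (Function.Embedding.subtype _)]
      refine hmin _ ?_
      refine lt_of_le_of_lt ?_ (erase_ssubset hx)
      intro l hl
      obtain ⟨a, _, rfl⟩ := mem_map.1 hl
      exact a.2)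
  obtain ⟨F, hF⟩ : ∃ F : β → β, F = fun l => if hl : l ∈ R.erase x then f ⟨l, hl⟩ else l := ⟨_, rfl⟩
  have hF1 : ∀ l (hl : l ∈ R.erase x), F l = f ⟨l, hl⟩ := fun l hl => by rw [hF]; exact dif_pos hl
  have hF2 : ∀ l, l ∉ R.erase x → F l = l := fun l hl => by rw [hF]; exact dif_neg hl
  have hFL : ∀ l ∈ R.erase x, F l ∈ R.erase u := by
    intro l hl
    rw [hLe, hF1 l hl]
    obtain ⟨h1, h2⟩ := mem_filter.1 (hf2 ⟨l, hl⟩)
    exact mem_filter.2 ⟨h1, l, mem_of_mem_erase hl, h2⟩
  have hout : ∀ l ∈ (insert u D).erase x, l ∉ R.erase x → l ∉ R ∧ l ∈ D := by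
    intro l hl hl2
    obtain ⟨h1, h2⟩ := mem_erase.1 hl
    have h3 : l ∉ R := fun h3 => hl2 (mem_erase.2 ⟨h1, h3⟩)
    refine ⟨h3, ?_⟩
    rcases mem_insert.1 h2 with h4 | h4
    · exact absurd (h4 ▸ huR) h3
    · exact h4
  have hLD : ∀ l ∈ R.erase u, l ∈ D := fun l hl => by
    rw [hLe] at hl
    exact (mem_filter.1 hl).1
  have hFD : ∀ l ∈ (insert u D).erase x, F l ∈ D := by
    intro l hl
    by_cases hlR : l ∈ R.erase x
    · exact hLD _ (hFL l hlR)
    · rw [hF2 l hlR]
      exact (hout l hl hlR).2
  have hFinj : Set.InjOn F (((insert u D).erase x : Finset β) : Set β) := by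
    intro l hl l' hl' he
    rw [mem_coe] at hl hl'
    by_cases h1 : l ∈ R.erase x
    · by_cases h2 : l' ∈ R.erase x
      · rw [hF1 l h1, hF1 l' h2] at he
        exact congrArg Subtype.val (hf1 he)
      · exfalso
        rw [hF2 l' h2] at he
        exact (hout l' hl' h2).1 (he ▸ mem_of_mem_erase (hFL l h1))
    · by_cases h2 : l' ∈ R.erase x
      · exfalso
        rw [hF2 l h1] at he
        exact (hout l hl h1).1 (he.symm ▸ mem_of_mem_erase (hFL l' h2))
      · rwa [hF2 l h1, hF2 l' h2] at he
  have hcard : ((insert u D).erase x).card = D.card := by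
    rw [card_erase_of_mem (hRX hx), card_insert_of_notMem huD]
    omega
  have himg : ((insert u D).erase x).image F = D := by
    refine eq_of_subset_of_card_le ?_ ?_
    · intro l hl
      obtain ⟨l', hl', rfl⟩ := mem_image.1 hl
      exact hFD l' hl'
    · rw [card_image_of_injOn hFinj, hcard]
  refine ⟨fun l => ψ (F l), ?_, ?_, hcard, ?_⟩
  · have hfib : ∀ w, (((insert u D).erase x).filter (fun l => ψ (F l) = w)).card =
        (D.filter (fun l => ψ l = w)).card := by
      intro w
      rw [← card_image_of_injOn (f := F) (s := ((insert u D).erase x).filter (fun l => ψ (F l) = w))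
        (hFinj.mono (fun l hl => mem_coe.2 (mem_filter.1 (mem_coe.1 hl)).1))]
      congr 1
      ext l
      rw [mem_image, mem_filter]
      constructor
      · rintro ⟨l', hl', rfl⟩
        obtain ⟨h1, h2⟩ := mem_filter.1 hl'
        exact ⟨hFD l' h1, h2⟩
      · rintro ⟨h1, h2⟩
        rw [← himg] at h1
        obtain ⟨l', hl', rfl⟩ := mem_image.1 h1
        exact ⟨l', mem_filter.2 ⟨hl', h2⟩, rfl⟩
    refine ⟨?_, ?_, ?_, ?_, ?_⟩
    · intro l hl
      rcases mem_insert.1 (mem_of_mem_erase hl) with h1 | h1
      · rw [h1]; exact hu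
      · exact h.sub h1
    · intro l hl
      exact h.mem _ (hFD l hl)
    · intro l hl h1
      rcases mem_insert.1 (mem_of_mem_erase h1) with h2 | h2
      · exact huC (mem_image.2 ⟨F l, hFD l hl, h2⟩)
      · exact h.nmem _ (hFD l hl) h2
    · intro l hl
      by_cases h1 : l ∈ R.erase x
      · rw [hF1 l h1]
        exact (mem_filter.1 (hf2 ⟨l, h1⟩)).2
      · rw [hF2 l h1]
        exact h.ad l (hout l hl h1).2
    · intro w
      exact (hfib w).le.trans (h.two w)
  · have h1 : ((insert u D).erase x).image (fun l => ψ (F l)) =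
        (((insert u D).erase x).image F).image ψ := by
      rw [image_image]
      rfl
    rw [h1, himg]
  · intro w
    rw [← card_image_of_injOn (f := F) (s := ((insert u D).erase x).filter (fun l => ψ (F l) = w))
      (hFinj.mono (fun l hl => mem_coe.2 (mem_filter.1 (mem_coe.1 hl)).1))]
    congr 1
    ext l
    rw [mem_image, mem_filter]
    constructor
    · rintro ⟨l', hl', rfl⟩
      obtain ⟨h1, h2⟩ := mem_filter.1 hl'
      exact ⟨hFD l' h1, h2⟩
    · rintro ⟨h1, h2⟩
      rw [← himg] at h1
      obtain ⟨l', hl', rfl⟩ := mem_image.1 h1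
      exact ⟨l', mem_filter.2 ⟨hl', h2⟩, rfl⟩

/-- everything is covered -/
theorem cover {G : Finset β} {adj : β → β → Prop} [DecidableRel adj]
    (hs : ∀ a b, adj a b → adj b a) (hi : ∀ a, ¬ adj a a)
    (hG : ∀ P ⊆ G, P.Nonempty → (∀ p ∈ P, ∀ q ∈ P, ¬ adj p q) →
      P.card ≤ 2 * (G.filter (fun k => ∃ p ∈ P, adj p k)).card)
    {D : Finset β} {ψ : β → β} (h : Pk G adj D ψ)
    (hmax : ∀ (D' : Finset β) (ψ' : β → β), Pk G adj D' ψ' → val D' ψ' ≤ val D ψ) {u : β}
    (hu : u ∈ G) (huD : u ∉ D) : u ∈ D.image ψ := by
  by_contra huC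
  obtain ⟨R, hRX, hR, hmin⟩ := exists_min_def adj D ψ (insert u D) (by
    rw [card_insert_of_notMem huD]
    have h1 : (Lv adj D ψ (insert u D)).card ≤ D.card := card_le_card (filter_subset _ _)
    omega)
  have hpos : 0 < R.card := by omega
  obtain ⟨x₀, hx₀⟩ := card_pos.1 hpos
  have hL := (exch h hu huD huC hRX hR hmin hx₀).1
  -- the elements of `R` are not centres
  have hnC : ∀ x ∈ R, x ∉ D.image ψ := by
    intro x hx h1
    rcases mem_insert.1 (hRX hx) with h2 | h2
    · exact huC (h2 ▸ h1)
    · obtain ⟨l, hl, h3⟩ := mem_image.1 h1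
      exact h.nmem l hl (h3 ▸ h2)
  have hRG : R ⊆ G := by
    intro x hx
    rcases mem_insert.1 (hRX hx) with h2 | h2
    · rw [h2]; exact hu
    · exact h.sub h2
  -- neighbours
  have key : ∀ x ∈ R, ∀ y ∈ G, adj x y → (D.filter (fun l => ψ l = y)).card = 2 := by
    intro x hx y hy hxy
    obtain ⟨_, ψ', h1, h2, h3, h4⟩ := exch h hu huD huC hRX hR hmin hx
    have hmax' : ∀ (D' : Finset β) (ψ'' : β → β), Pk G adj D' ψ'' →
        val D' ψ'' ≤ val ((insert u D).erase x) ψ' := by
      intro D' ψ'' h5
      have h6 := hmax D' ψ'' h5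
      have h7 : val ((insert u D).erase x) ψ' = val D ψ := by
        unfold val
        rw [h2, h3]
      rw [h7]
      exact h6
    have h5 := aug hs hi h1 hmax' (hRG hx) (notMem_erase _ _) (by rw [h2]; exact hnC x hx) hy hxy
    rw [← h4 y]
    exact h5.2
  have hmemC : ∀ y, (D.filter (fun l => ψ l = y)).card = 2 → y ∈ D.image ψ := by
    intro y hy
    obtain ⟨l, hl⟩ := card_pos.1 (by rw [hy]; norm_num : 0 < (D.filter (fun l => ψ l = y)).card)
    obtain ⟨h1, h2⟩ := mem_filter.1 hl
    exact mem_image.2 ⟨l, h1, h2⟩
  have hind : ∀ p ∈ R, ∀ q ∈ R, ¬ adj p q := by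
    intro p hp q hq hpq
    exact hnC q hq (hmemC q (key p hp q (hRG hq) hpq))
  have hfin := hG R hRG ⟨x₀, hx₀⟩ hind
  -- counting
  have hcount : (Lv adj D ψ R).card = 2 * (G.filter (fun k => ∃ p ∈ R, adj p k)).card := by
    have h1 : ∀ l ∈ Lv adj D ψ R, ψ l ∈ G.filter (fun k => ∃ p ∈ R, adj p k) := by
      intro l hl
      obtain ⟨h2, h3⟩ := mem_filter.1 hl
      exact mem_filter.2 ⟨h.mem l h2, h3⟩
    rw [card_eq_sum_card_fiberwise h1]
    rw [sum_congr rfl (g := fun _ => 2), sum_const, smul_eq_mul, mul_comm]
    intro w hw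
    obtain ⟨hwG, p, hp, hpw⟩ := mem_filter.1 hw
    rw [← key p hp w hwG hpw]
    congr 1
    ext l
    simp only [Lv, mem_filter]
    constructor
    · rintro ⟨⟨h2, _⟩, h3⟩
      exact ⟨h2, h3⟩
    · rintro ⟨h2, h3⟩
      exact ⟨⟨h2, p, hp, h3 ▸ hpw⟩, h3⟩
  omega

end

theorem starFactor : StarFactor.{u} := by
  intro β _ G adj _ hs hi hG
  obtain ⟨D, ψ, h, hmax⟩ := exists_max G adj
  have hc : ∀ v ∈ G, v ∉ D → v ∈ D.image ψ := fun v hv hvD => cover hs hi hG h hmax hv hvD
  refine ⟨fun v => if v ∈ D then ψ v else v, ?_, ?_⟩
  · intro v hv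
    by_cases hvD : v ∈ D
    · have h1 := h.nmem v hvD
      simp only [if_pos hvD, if_neg h1]
      exact ⟨h.mem v hvD, trivial, Or.inr (h.ad v hvD)⟩
    · simp only [if_neg hvD]
      exact ⟨hv, trivial, Or.inl trivial⟩
  · intro w hw hcw
    have hwD : w ∉ D := by
      intro h1
      simp only [if_pos h1] at hcw
      exact h.nmem w h1 (hcw.symm ▸ h1)
    have he : G.filter (fun v => v ≠ w ∧ (if v ∈ D then ψ v else v) = w) =
        D.filter (fun l => ψ l = w) := by
      ext v
      simp only [mem_filter]
      constructor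
      · rintro ⟨h1, h2, h3⟩
        by_cases hvD : v ∈ D
        · rw [if_pos hvD] at h3
          exact ⟨hvD, h3⟩
        · rw [if_neg hvD] at h3
          exact absurd h3 h2
      · rintro ⟨h1, h2⟩
        refine ⟨h.sub h1, ?_, ?_⟩
        · rintro rfl
          exact hwD h1
        · rw [if_pos h1]
          exact h2
    rw [he]
    refine ⟨?_, h.two w⟩
    obtain ⟨l, hl, hlw⟩ := mem_image.1 (hc w hw hwD)
    exact card_pos.2 ⟨l, mem_filter.2 ⟨hl, hlw⟩⟩

end Pool.Agent.N435.Star
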